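import Pool.Agent.Mg.F3e91a1.Gb51c62

/- Weak Leopoldt for almost all primes and almost all members of any one-parameter family of
number fields with enough independent units. -/

open Filter NumberField Polynomial Pool.Agent.MP_3e91a1_nt.WL

namespace Pool.Agent.Results.MP_3e91a1_nt.AnyFamily

theorem result (m : ℕ) (f : ℤ[X][X]) (hf : f.Monic) (u : Fin m → (AdjoinRoot f)ˣ)
    (hu : ∀ e : Fin m → ℤ, e ≠ 0 →
      Transcendental ℤ ((∏ i, u i ^ e i : (AdjoinRoot f)ˣ) : AdjoinRoot f))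
    (δ ε : ℝ) (hδ : 0 < δ) (hε : 0 < ε) : ∀ᶠ M : ℕ in atTop,
    ∀ (k : ℕ → IntermediateField ℚ (AlgebraicClosure ℚ)) [∀ T, NumberField (k T)],
      ∀ᶠ x : ℕ in atTop, (Set.ncard {T : ℕ | 1 ≤ T ∧ T ≤ M ∧
        Irreducible (f.map (evalRingHom (T : ℤ))) ∧
        (∃ w ∈ k T, aeval w (f.map (evalRingHom (T : ℤ))) = 0) ∧ Units.rank (k T) ≤ m ∧
        (Set.ncard {p : ℕ | p ≤ x ∧ ∃ _ : Fact p.Prime,
          ∀ K : IntermediateField ℚ (AlgebraicClosure ℚ), PExt p (k T) (k T ⊔ K) →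
            WeakLeopoldtR p K (AlgebraicClosure ℚ) (k T)} : ℝ) <
          (1 - δ) * x / Real.log x} : ℝ) ≤ ε * M := by
  filter_upwards [Pool.Agent.MP_3e91a1_nt.DS.cth_ok m f u hf hu δ ε hδ hε] with M hM k _
  exact hM k _ fun T p hp h => ⟨hp, fun K hK => Pool.Agent.MP_3e91a1_nt.DS.dsp_ok p (k T) K h
    (Pool.Agent.MP_3e91a1_nt.pext_BRG hK)⟩

end Pool.Agent.Results.MP_3e91a1_nt.AnyFamily
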