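import Pool.Agent.Mg.F3e91a1.G6cb807
import Pool.Agent.MP_3e91a1_nt.Den
import Pool.Agent.MP_3e91a1_nt.Brg
import Pool.Agent.Mg.F3792c7p.Gb958ca

/- Weak Leopoldt for a positive proportion of primes, residual constituents `1` and `ω^(1-k)`. -/

open Filter NumberField Pool.Agent.MP_3e91a1_nt.WL

namespace Pool.Agent.Results.MP_3e91a1_nt.BernoulliTwists

theorem result (k : ℕ) (hk : k = 3 ∨ k = 5 ∨ k = 7)
    (K₀ : IntermediateField ℚ (AlgebraicClosure ℚ))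
    [IsTotallyComplex K₀] (h2 : Module.finrank ℚ K₀ = 2) : ∀ᶠ x : ℕ in atTop,
    (x : ℝ) / (338 * Real.log x) ≤ (Set.ncard {p : ℕ | p ≤ x ∧ ∃ _ : Fact p.Prime,
      ∀ K, PExt p K₀ K → WeakLeopoldt p K (AlgebraicClosure ℚ) {0, p - k}} : ℝ) := by
  obtain ⟨B, hB⟩ := Pool.Agent.MP_3e91a1_nt.ONE_ok k K₀ h2 (by omega) (by rcases hk with rfl | rfl | rfl <;> decide)
  refine Pool.Agent.MP_3e91a1_nt.lose_DEN
    (fun p => p.Prime ∧ ¬ (p : ℤ) ∣ (bernoulli (p - k) - 0).num) _ B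
    (fun p hp h => ⟨⟨h.1⟩, fun K hK => @Pool.Agent.MP_3e91a1_nt.wl_BRG p ⟨h.1⟩ _ _
      (@hB p ⟨h.1⟩ hp (by simpa using h.2) K (Pool.Agent.MP_3e91a1_nt.pext_BRG hK))⟩) ?_
  let _ : MP_3924c3_nt.BK.I.Cst := ⟨0⟩
  rcases hk with rfl | rfl | rfl
  · filter_upwards [MP_3924c3_nt.BK.I.den3, eventually_ge_atTop 1] with x h hx
    refine le_trans ?_ h
    have : 0 ≤ (x : ℝ) / Real.log x := div_nonneg x.cast_nonneg (Real.log_natCast_nonneg x)
    rw [mul_comm, ← div_div, mul_div_assoc]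
    linarith
  · filter_upwards [MP_3924c3_nt.BK.I.den5] with x h
    refine le_trans (le_of_eq ?_) h
    rw [mul_comm, ← div_div, mul_div_assoc]
    ring
  · filter_upwards [MP_3924c3_nt.BK.K7.den7] with x h
    refine le_trans (le_of_eq ?_) h
    rw [mul_comm, ← div_div, mul_div_assoc]
    ring

end Pool.Agent.Results.MP_3e91a1_nt.BernoulliTwists
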