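import Pool.Agent.Mg.F3e91a1.Gdbecc4

/- The conjecture of Leopoldt, in a strong form, for almost all primes and almost all members of
any one-parameter family of number fields with enough independent units. -/

open Filter NumberField Polynomial

namespace Pool.Agent.Results.MP_3e91a1_nt.LeopoldtFamily

theorem result (m : ℕ) (f : ℤ[X][X]) (hf : f.Monic) (u : Fin m → (AdjoinRoot f)ˣ)
    (hu : ∀ e : Fin m → ℤ, e ≠ 0 →
      Transcendental ℤ ((∏ i, u i ^ e i : (AdjoinRoot f)ˣ) : AdjoinRoot f))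
    (δ ε : ℝ) (hδ : 0 < δ) (hε : 0 < ε) : ∀ᶠ M : ℕ in atTop,
    ∀ (k : ℕ → IntermediateField ℚ (AlgebraicClosure ℚ)) [∀ T, NumberField (k T)],
      ∀ᶠ x : ℕ in atTop, (Set.ncard {T : ℕ | 1 ≤ T ∧ T ≤ M ∧
        Irreducible (f.map (evalRingHom (T : ℤ))) ∧
        (∃ w ∈ k T, aeval w (f.map (evalRingHom (T : ℤ))) = 0) ∧ Units.rank (k T) ≤ m ∧
        (Set.ncard {p : ℕ | p ≤ x ∧ p.Prime ∧ ∀ (j : ℕ) (y : (𝓞 (k T))ˣ),
          (p : 𝓞 (k T)) ^ (j + 1) ∣ (y : 𝓞 (k T)) - 1 → ∃ η : (𝓞 (k T))ˣ, y = η ^ p ^ j} : ℝ) <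
          (1 - δ) * x / Real.log x} : ℝ) ≤ ε * M := by
  filter_upwards [Pool.Agent.MP_3e91a1_nt.DS.cth_ok m f u hf hu δ ε hδ hε] with M hM k _
  exact hM k _ fun T p hp h => ⟨hp.out, h.1⟩

end Pool.Agent.Results.MP_3e91a1_nt.LeopoldtFamily
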