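import Pool.Agent.Mg.F3e91a1.G9ff6ad
import Pool.Agent.Mg.F3e91a1.Gb2ea5a
import Pool.Agent.MP_3e91a1_nt.Brg

/- Weak Leopoldt for a positive proportion of primes over base fields with a real quadratic
subfield. -/

open Filter NumberField Pool.Agent.MP_3e91a1_nt.WL

namespace Pool.Agent.Results.MP_3e91a1_nt.RootFive

theorem result (D : ℕ) (s t : AlgebraicClosure ℚ) (hs : s ^ 2 = -D) (ht : t ^ 2 = 5) :
    ∀ᶠ x : ℕ in atTop,
    (x : ℝ) / (100 * Real.log x) ≤ (Set.ncard {p : ℕ | p ≤ x ∧ ∃ _ : Fact p.Prime,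
      ∀ K, PExt p (IntermediateField.adjoin ℚ {s, t}) K →
        WeakLeopoldt p K (AlgebraicClosure ℚ) {0}} : ℝ) := by
  obtain ⟨B, hB⟩ := Pool.Agent.MP_3e91a1_nt.F5.both_ok D s t hs ht
  filter_upwards [Pool.Agent.MP_3e91a1_nt.F5.DEN_ok B] with x h
  refine h.trans (Nat.cast_le.2 (Set.ncard_le_ncard (fun p hp => ?_)
    ((Set.finite_le_nat x).subset fun p hp => hp.1)))
  obtain ⟨h1, h2, h3, h4⟩ := hp
  exact ⟨h1, ⟨h2⟩, fun K hK => @Pool.Agent.MP_3e91a1_nt.wl_BRG p ⟨h2⟩ _ _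
    (@hB p ⟨h2⟩ h3 h4 K (Pool.Agent.MP_3e91a1_nt.pext_BRG hK))⟩

end Pool.Agent.Results.MP_3e91a1_nt.RootFive
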